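import Mathlib

/-!
Bol loops of exponent two, free generating families, elementary and tame automorphisms.
-/

namespace Pool.Agent.MP_e74ac0_al

universe u v w

/-- A (right) Bol loop of exponent two: a set with a product and a two-sided unit in which
all equations `a * x = b` and `x * a = b` are uniquely solvable, with the right Bol identity
`((z x) y) x = z ((x y) x)` and with `x x = 1`. -/
class BolLoopTwo (L : Type u) extends MulOneClass L where
  left_solvable : ∀ a b : L, ∃! x : L, a * x = b
  right_solvable : ∀ a b : L, ∃! x : L, x * a = b
  bol : ∀ x y z : L, ((z * x) * y) * x = z * ((x * y) * x)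
  sq : ∀ x : L, x * x = 1

/-- `y : Y → B` is a free generating family of the Bol loop of exponent two `B`
(tested against all Bol loops of exponent two in `Type w`). -/
def IsFreeOn {Y : Type v} {B : Type u} [BolLoopTwo B] (y : Y → B) : Prop :=
  ∀ (L : Type w) [BolLoopTwo L] (f : Y → L), ∃! φ : B →* L, ∀ j, φ (y j) = f j

/-- Membership in the subloop generated by `S`: the smallest subset containing `S` and `1`
and closed under the product and both divisions. -/
inductive InSubloop {L : Type u} [BolLoopTwo L] (S : Set L) : L → Prop
  | base {a : L} : a ∈ S → InSubloop S a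
  | one : InSubloop S 1
  | mul {a b : L} : InSubloop S a → InSubloop S b → InSubloop S (a * b)
  | ldiv {a x : L} : InSubloop S a → InSubloop S (a * x) → InSubloop S x
  | rdiv {a x : L} : InSubloop S a → InSubloop S (x * a) → InSubloop S x

/-- `φ` is an elementary automorphism with respect to the family `y`: for some `i` and some
`v` in the subloop generated by the other `y j`, `φ` fixes every `y j` with `j ≠ i` and sends
`y i` to `y i * v` or to `v * y i`. -/
def IsElementary {Y : Type v} {B : Type u} [BolLoopTwo B] (y : Y → B) (φ : MulAut B) : Prop :=
  ∃ (i : Y) (v : B), InSubloop {b | ∃ j, j ≠ i ∧ b = y j} v ∧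
    (φ (y i) = y i * v ∨ φ (y i) = v * y i) ∧ ∀ j, j ≠ i → φ (y j) = y j

/-- The group of tame automorphisms: the subgroup of `Aut B` generated by the elementary
automorphisms. -/
def tame {Y : Type v} {B : Type u} [BolLoopTwo B] (y : Y → B) : Subgroup (MulAut B) :=
  Subgroup.closure {φ | IsElementary y φ}

end Pool.Agent.MP_e74ac0_al
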