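import Mathlib
import Pool.Agent.MP_e74ac0_al.Defs

/-!
Tameness of automorphisms of free Bol loops of exponent two fails for every number
`n ≥ 2` of free generators: if `x ≠ y` are two of the free generators, the inner mapping
`t ↦ ((t (x y)) (y x)) ((x y) (y x))` is an automorphism which is not tame.
-/

namespace Pool.Agent.MP_e74ac0_al

universe u v w

section Basic

variable {L : Type u} [BolLoopTwo L]

theorem mul_mul_self (z x : L) : (z * x) * x = z := by
  have h := BolLoopTwo.bol x 1 z
  rw [mul_one, mul_one, BolLoopTwo.sq, mul_one] at h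
  exact h

/-- The inner mapping `w ↦ ((w a) b) (a b)`. -/
def innerFun (a b w : L) : L := ((w * a) * b) * (a * b)

theorem innerFun_mul (a b z w : L) :
    innerFun a b (z * w) = innerFun a b z * innerFun a b w := by
  have key : ∀ t : L, innerFun a b t *
      (((a * b) * ((b * ((a * w) * a)) * b)) * (a * b)) = innerFun a b (t * w) := by
    intro t
    unfold innerFun
    rw [← BolLoopTwo.bol (a * b), mul_mul_self, ← BolLoopTwo.bol b, mul_mul_self,
      ← BolLoopTwo.bol a, mul_mul_self]
  have h1 := key 1
  have h2 : innerFun a b (1 : L) = 1 := by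
    unfold innerFun
    rw [one_mul, BolLoopTwo.sq]
  rw [h2, one_mul, one_mul] at h1
  rw [← key z, h1]

/-- The inverse of the inner mapping. -/
def innerInv (a b w : L) : L := ((w * (a * b)) * b) * a

/-- The inner mapping `w ↦ ((w a) b) (a b)` is an automorphism. -/
def inner (a b : L) : MulAut L where
  toFun := innerFun a b
  invFun := innerInv a b
  left_inv w := by
    unfold innerFun innerInv
    rw [mul_mul_self, mul_mul_self, mul_mul_self]
  right_inv w := by
    unfold innerFun innerInv
    rw [mul_mul_self, mul_mul_self, mul_mul_self]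
  map_mul' z w := innerFun_mul a b z w

theorem inner_apply (a b w : L) : inner a b w = ((w * a) * b) * (a * b) := rfl

theorem InSubloop.map {L' : Type v} [BolLoopTwo L'] (π : L →* L') {S : Set L} {S' : Set L'}
    (hS : ∀ a ∈ S, π a ∈ S') {x : L} (hx : InSubloop S x) : InSubloop S' (π x) := by
  induction hx with
  | base h => exact InSubloop.base (hS _ h)
  | one => rw [map_one]; exact InSubloop.one
  | mul _ _ iha ihb => rw [map_mul]; exact InSubloop.mul iha ihb
  | ldiv _ _ iha ihb => rw [map_mul] at ihb; exact InSubloop.ldiv iha ihb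
  | rdiv _ _ iha ihb => rw [map_mul] at ihb; exact InSubloop.rdiv iha ihb

end Basic

/-- In a magma with unit satisfying the right Bol identity and `x x = 1`, all equations
`a * x = b` and `x * a = b` are uniquely solvable. -/
abbrev BolLoopTwo.ofIdentities (L : Type u) [MulOneClass L]
    (bol : ∀ x y z : L, ((z * x) * y) * x = z * ((x * y) * x))
    (sq : ∀ x : L, x * x = 1) : BolLoopTwo L :=
  have mms : ∀ z x : L, (z * x) * x = z := by
    intro z x
    have h := bol x 1 z
    rw [mul_one, mul_one, sq, mul_one] at h
    exact h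
  { left_solvable := by
      intro a b
      refine ⟨(a * (b * a)) * a, ?_, ?_⟩
      · show a * ((a * (b * a)) * a) = b
        rw [← bol, sq, one_mul, mms]
      · intro x hx
        have hx' : a * x = b := hx
        have h1 : a * ((a * x) * a) = x * a := by
          rw [← bol, sq, one_mul]
        rw [← hx', h1, mms]
    right_solvable := by
      intro a b
      refine ⟨b * a, mms b a, ?_⟩
      intro x hx
      have hx' : x * a = b := hx
      rw [← hx', mms]
    bol := bol
    sq := sq }

/-! ### The free Bol loop of exponent two -/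

/-- words in a product, a unit and variables from `Y` -/
inductive Term (Y : Type v) : Type v
  | one : Term Y
  | var : Y → Term Y
  | mul : Term Y → Term Y → Term Y

/-- the congruence generated by the identities of Bol loops of exponent two -/
inductive Term.Rel {Y : Type v} : Term Y → Term Y → Prop
  | refl (s : Term Y) : Term.Rel s s
  | symm {s t : Term Y} : Term.Rel s t → Term.Rel t s
  | trans {s t r : Term Y} : Term.Rel s t → Term.Rel t r → Term.Rel s r
  | mul {s s' t t' : Term Y} : Term.Rel s s' → Term.Rel t t' →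
      Term.Rel (Term.mul s t) (Term.mul s' t')
  | one_mul (s : Term Y) : Term.Rel (Term.mul Term.one s) s
  | mul_one (s : Term Y) : Term.Rel (Term.mul s Term.one) s
  | sq (s : Term Y) : Term.Rel (Term.mul s s) Term.one
  | bol (x y z : Term Y) : Term.Rel
      (Term.mul (Term.mul (Term.mul z x) y) x) (Term.mul z (Term.mul (Term.mul x y) x))

/-- the congruence as a setoid -/
def Term.setoid (Y : Type v) : Setoid (Term Y) where
  r := Term.Rel
  iseqv := ⟨Term.Rel.refl, Term.Rel.symm, Term.Rel.trans⟩

/-- the free Bol loop of exponent two on `Y` -/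
def FreeBolTwo (Y : Type v) : Type v := Quotient (Term.setoid Y)

namespace FreeBolTwo

variable {Y : Type v}

/-- the class of a word -/
def mk (s : Term Y) : FreeBolTwo Y := Quotient.mk (Term.setoid Y) s

theorem sound {s t : Term Y} (h : Term.Rel s t) : mk s = mk t :=
  Quotient.sound (s := Term.setoid Y) h

/-- the free generators -/
def of (j : Y) : FreeBolTwo Y := mk (Term.var j)

instance : MulOneClass (FreeBolTwo Y) where
  one := mk Term.one
  mul := Quotient.map₂ (sa := Term.setoid Y) (sb := Term.setoid Y) (sc := Term.setoid Y)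
    Term.mul (fun _ _ h1 _ _ h2 => Term.Rel.mul h1 h2)
  one_mul a := by
    induction a using Quotient.ind with
    | _ s => exact sound (Term.Rel.one_mul s)
  mul_one a := by
    induction a using Quotient.ind with
    | _ s => exact sound (Term.Rel.mul_one s)

theorem mk_mul (s t : Term Y) : mk (Term.mul s t) = mk s * mk t := rfl

theorem mk_one : (mk Term.one : FreeBolTwo Y) = 1 := rfl

theorem ind {P : FreeBolTwo Y → Prop} (h : ∀ s, P (mk s)) (a : FreeBolTwo Y) : P a :=
  Quotient.ind (s := Term.setoid Y) h a

instance : BolLoopTwo (FreeBolTwo Y) := BolLoopTwo.ofIdentities (FreeBolTwo Y)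
  (by
    intro x y z
    induction x using ind with
    | _ x =>
    induction y using ind with
    | _ y =>
    induction z using ind with
    | _ z => exact sound (Term.Rel.bol x y z))
  (by
    intro x
    induction x using ind with
    | _ x => exact sound (Term.Rel.sq x))

/-- evaluation of a word -/
def eval {L : Type w} [BolLoopTwo L] (f : Y → L) : Term Y → L
  | Term.one => 1
  | Term.var j => f j
  | Term.mul s t => eval f s * eval f t

theorem eval_rel {L : Type w} [BolLoopTwo L] (f : Y → L) {s t : Term Y}
    (h : Term.Rel s t) : eval f s = eval f t := by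
  induction h with
  | refl s => rfl
  | symm _ ih => exact ih.symm
  | trans _ _ ih1 ih2 => exact ih1.trans ih2
  | mul _ _ ih1 ih2 => simp only [eval, ih1, ih2]
  | one_mul s => simp only [eval, _root_.one_mul]
  | mul_one s => simp only [eval, _root_.mul_one]
  | sq s => simp only [eval]; exact BolLoopTwo.sq _
  | bol x y z => simp only [eval]; exact BolLoopTwo.bol _ _ _

/-- the homomorphism extending a map on the free generators -/
def lift {L : Type w} [BolLoopTwo L] (f : Y → L) : FreeBolTwo Y →* L where
  toFun := Quotient.lift (s := Term.setoid Y) (eval f) (fun _ _ h => eval_rel f h)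
  map_one' := rfl
  map_mul' a b := by
    induction a using ind with
    | _ a =>
    induction b using ind with
    | _ b => rfl

theorem isFreeOn_of (Y : Type v) : IsFreeOn.{v, v, w} (of : Y → FreeBolTwo Y) := by
  intro L _ f
  refine ⟨lift f, fun j => rfl, ?_⟩
  intro ψ hψ
  ext a
  induction a using ind with
  | _ s =>
    induction s with
    | one => rw [mk_one, map_one, map_one]
    | var j => exact hψ j
    | mul s t ih1 ih2 => rw [mk_mul, map_mul, map_mul, ih1, ih2]

end FreeBolTwo

/-! ### The finite quotient -/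

section Quot

open Classical

variable {Y : Type v}

/-- The underlying set `F_2^Y ⊕ F_2 ⊕ F_2` of the finite loop. The parameters `p q` are two
distinct elements of `Y`. -/
@[ext] structure M (p q : Y) : Type v where
  /-- vector component -/
  v : Y → ZMod 2
  /-- second component -/
  s : ZMod 2
  /-- third component -/
  z : ZMod 2

variable {p q : Y}

theorem zero_ne_single : ¬ ((0 : Y → ZMod 2) = Pi.single p 1) := by
  intro h
  have h1 := congrFun h p
  simp at h1

noncomputable instance : MulOneClass (M p q) where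
  one := ⟨0, 0, 0⟩
  mul a b := ⟨a.v + b.v, a.s + b.s + (if b.v = Pi.single p 1 then a.v q else 0),
    a.z + b.z + (if b.v = 0 ∧ b.s = 1 then a.v p else 0)⟩
  one_mul a := by
    apply M.ext
    · exact zero_add _
    · show 0 + a.s + (if a.v = Pi.single p 1 then (0 : Y → ZMod 2) q else 0) = a.s
      simp
    · show 0 + a.z + (if a.v = 0 ∧ a.s = 1 then (0 : Y → ZMod 2) p else 0) = a.z
      simp
  mul_one a := by
    apply M.ext
    · exact add_zero _
    · show a.s + 0 + (if (0 : Y → ZMod 2) = Pi.single p 1 then a.v q else 0) = a.s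
      rw [if_neg zero_ne_single]; simp
    · show a.z + 0 + (if (0 : Y → ZMod 2) = 0 ∧ (0 : ZMod 2) = 1 then a.v p else 0) = a.z
      simp

theorem mul_v (a b : M p q) : (a * b).v = a.v + b.v := rfl
theorem mul_s (a b : M p q) :
    (a * b).s = a.s + b.s + (if b.v = Pi.single p 1 then a.v q else 0) := rfl
theorem mul_z (a b : M p q) :
    (a * b).z = a.z + b.z + (if b.v = 0 ∧ b.s = 1 then a.v p else 0) := rfl
theorem one_v : (1 : M p q).v = 0 := rfl
theorem one_s : (1 : M p q).s = 0 := rfl
theorem one_z : (1 : M p q).z = 0 := rfl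

theorem vadd_self (a : Y → ZMod 2) : a + a = 0 := by
  funext i; exact CharTwo.add_self_eq_zero _

theorem vcancel (a b : Y → ZMod 2) : a + b + a = b := by
  funext i
  simp only [Pi.add_apply]
  generalize a i = x
  generalize b i = y
  revert x y
  decide

theorem M.bol_identity (hpq : p ≠ q) (x y z : M p q) :
    ((z * x) * y) * x = z * ((x * y) * x) := by
  have hs0 : (Pi.single p (1 : ZMod 2) : Y → ZMod 2) q = 0 := by
    simp [hpq.symm]
  have hv : ((x * y) * x).v = y.v := by rw [mul_v, mul_v, vcancel]
  apply M.ext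
  · rw [mul_v z, hv, mul_v, mul_v, mul_v, add_assoc z.v, add_assoc z.v, vcancel]
  · rw [mul_s z, hv, mul_s (x * y) x, mul_s x y, mul_s _ x, mul_s _ y, mul_s z x]
    simp only [mul_v, Pi.add_apply]
    by_cases h1 : x.v = Pi.single p 1
    · by_cases h2 : y.v = Pi.single p 1
      · simp only [h1, h2, if_true, hs0]
        generalize x.s = a1
        generalize y.s = a2
        generalize z.s = a3
        generalize z.v q = a4
        revert a1 a2 a3 a4
        decide
      · simp only [h1, h2, if_true, if_false, hs0]
        generalize x.s = a1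
        generalize y.s = a2
        generalize z.s = a3
        generalize z.v q = a4
        generalize y.v q = a5
        revert a1 a2 a3 a4 a5
        decide
    · by_cases h2 : y.v = Pi.single p 1
      · simp only [h1, h2, if_true, if_false]
        generalize x.s = a1
        generalize y.s = a2
        generalize z.s = a3
        generalize z.v q = a4
        generalize x.v q = a5
        revert a1 a2 a3 a4 a5
        decide
      · simp only [h1, h2, if_false]
        generalize x.s = a1
        generalize y.s = a2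
        generalize z.s = a3
        revert a1 a2 a3
        decide
  · have hcond : ((x * y * x).v = 0 ∧ (x * y * x).s = 1) ↔ (y.v = 0 ∧ y.s = 1) := by
      rw [hv]
      constructor
      · rintro ⟨h0, h1⟩
        refine ⟨h0, ?_⟩
        rw [mul_s, mul_s, mul_v, h0] at h1
        rw [if_neg zero_ne_single] at h1
        by_cases h2 : x.v = Pi.single p 1
        · rw [if_pos h2, h2] at h1
          simp only [Pi.add_apply, hs0, Pi.zero_apply] at h1
          revert h1
          generalize x.s = a1
          generalize y.s = a2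
          revert a1 a2
          decide
        · rw [if_neg h2] at h1
          revert h1
          generalize x.s = a1
          generalize y.s = a2
          revert a1 a2
          decide
      · rintro ⟨h0, h1⟩
        refine ⟨h0, ?_⟩
        rw [mul_s, mul_s, mul_v, h0, h1]
        rw [if_neg zero_ne_single]
        by_cases h2 : x.v = Pi.single p 1
        · rw [if_pos h2, h2]
          simp only [Pi.add_apply, hs0, Pi.zero_apply]
          generalize x.s = a1
          revert a1
          decide
        · rw [if_neg h2]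
          generalize x.s = a1
          revert a1
          decide
    rw [mul_z z, mul_z (x * y) x, mul_z x y, mul_z _ x, mul_z _ y, mul_z z x]
    simp only [hcond]
    simp only [mul_v, Pi.add_apply]
    by_cases h1 : x.v = 0 ∧ x.s = 1
    · have hx0 : x.v p = 0 := by rw [h1.1]; rfl
      by_cases h2 : y.v = 0 ∧ y.s = 1
      · have hy0 : y.v p = 0 := by rw [h2.1]; rfl
        rw [if_pos h1, if_pos h1, if_pos h2, if_pos h2, if_pos h2, if_pos h1, hx0, hy0]
        generalize x.z = a1
        generalize y.z = a2
        generalize z.z = a3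
        generalize z.v p = a4
        revert a1 a2 a3 a4
        decide
      · rw [if_pos h1, if_pos h1, if_neg h2, if_neg h2, if_neg h2, if_pos h1, hx0]
        generalize x.z = a1
        generalize y.z = a2
        generalize z.z = a3
        generalize z.v p = a4
        generalize y.v p = a5
        revert a1 a2 a3 a4 a5
        decide
    · by_cases h2 : y.v = 0 ∧ y.s = 1
      · rw [if_neg h1, if_neg h1, if_pos h2, if_pos h2, if_pos h2, if_neg h1]
        generalize x.z = a1
        generalize y.z = a2
        generalize z.z = a3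
        generalize z.v p = a4
        generalize x.v p = a5
        revert a1 a2 a3 a4 a5
        decide
      · rw [if_neg h1, if_neg h1, if_neg h2, if_neg h2, if_neg h2, if_neg h1]
        generalize x.z = a1
        generalize y.z = a2
        generalize z.z = a3
        revert a1 a2 a3
        decide

theorem M.sq_identity (hpq : p ≠ q) (x : M p q) : x * x = 1 := by
  apply M.ext
  · rw [mul_v, vadd_self, one_v]
  · rw [mul_s, one_s, CharTwo.add_self_eq_zero, zero_add]
    by_cases h : x.v = Pi.single p 1
    · rw [if_pos h, h]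
      simp [hpq.symm]
    · rw [if_neg h]
  · rw [mul_z, one_z, CharTwo.add_self_eq_zero, zero_add]
    by_cases h : x.v = 0 ∧ x.s = 1
    · rw [if_pos h, h.1]; rfl
    · rw [if_neg h]

noncomputable instance [h : Fact (p ≠ q)] : BolLoopTwo (M p q) :=
  BolLoopTwo.ofIdentities (M p q) (M.bol_identity h.out) (M.sq_identity h.out)

/-- the span of the vector components of all members of the family except `i` -/
def spanOther (t : Y → M p q) (i : Y) : Submodule (ZMod 2) (Y → ZMod 2) :=
  Submodule.span (ZMod 2) {a | ∃ j, j ≠ i ∧ a = (t j).v}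

/-- the vector components of the family span everything -/
def Spans (t : Y → M p q) : Prop :=
  ∀ a : Y → ZMod 2, a ∈ Submodule.span (ZMod 2) (Set.range fun j => (t j).v)

/-- the invariant: every linear form sending the vector component of each `t j` to its third
component vanishes at the distinguished vector -/
def Inv (t : Y → M p q) : Prop :=
  ∀ f : (Y → ZMod 2) →ₗ[ZMod 2] ZMod 2, (∀ j, f (t j).v = (t j).z) → f (Pi.single p 1) = 0

theorem v_mem_spanOther [Fact (p ≠ q)] (t : Y → M p q) (i : Y) {u : M p q}
    (hu : InSubloop {b | ∃ j, j ≠ i ∧ b = t j} u) : u.v ∈ spanOther t i := by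
  induction hu with
  | base h =>
    obtain ⟨j, hj, rfl⟩ := h
    exact Submodule.subset_span ⟨j, hj, rfl⟩
  | one => exact Submodule.zero_mem _
  | mul _ _ iha ihb => exact Submodule.add_mem _ iha ihb
  | @ldiv a x _ _ iha ihb =>
    have h1 : x.v = a.v + (a * x).v := by
      rw [mul_v, ← add_assoc, vadd_self, zero_add]
    rw [h1]
    exact Submodule.add_mem _ iha ihb
  | @rdiv a x _ _ iha ihb =>
    have h1 : x.v = (x * a).v + a.v := by
      rw [mul_v, add_assoc, vadd_self, add_zero]
    rw [h1]
    exact Submodule.add_mem _ ihb iha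

theorem zadd_self (a : ZMod 2) : a + a = 0 := CharTwo.add_self_eq_zero a

/-- If the distinguished vector is not in the span of the other members, the subloop they
generate is the graph of a linear map. -/
theorem subloop_linear [Fact (p ≠ q)] (t : Y → M p q) (i : Y)
    (h0 : Pi.single p (1 : ZMod 2) ∉ spanOther t i)
    (σ f : (Y → ZMod 2) →ₗ[ZMod 2] ZMod 2)
    (hσ : ∀ j, j ≠ i → σ (t j).v = (t j).s) (hf : ∀ j, j ≠ i → f (t j).v = (t j).z)
    {u : M p q} (hu : InSubloop {b | ∃ j, j ≠ i ∧ b = t j} u) :
    u.s = σ u.v ∧ u.z = f u.v := by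
  have prod : ∀ a b : M p q, b.v ∈ spanOther t i → b.s = σ b.v →
      (a * b).s = a.s + b.s ∧ (a * b).z = a.z + b.z := by
    intro a b hb hs
    have h1 : ¬ b.v = Pi.single p 1 := by
      intro h
      rw [h] at hb
      exact h0 hb
    have h2 : ¬ (b.v = 0 ∧ b.s = 1) := by
      rintro ⟨ha, hb'⟩
      rw [hb', ha, map_zero] at hs
      exact one_ne_zero hs
    rw [mul_s, mul_z, if_neg h1, if_neg h2, add_zero, add_zero]
    exact ⟨rfl, rfl⟩
  induction hu with
  | base h =>
    obtain ⟨j, hj, rfl⟩ := h
    exact ⟨(hσ j hj).symm, (hf j hj).symm⟩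
  | one => rw [one_s, one_z, one_v, map_zero, map_zero]; exact ⟨rfl, rfl⟩
  | @mul a b _ hb iha ihb =>
    obtain ⟨h1, h2⟩ := prod a b (v_mem_spanOther t i hb) ihb.1
    rw [h1, h2, mul_v, map_add, map_add, iha.1, iha.2, ihb.1, ihb.2]
    exact ⟨rfl, rfl⟩
  | @ldiv a x ha hax iha ihb =>
    have hx : InSubloop {b | ∃ j, j ≠ i ∧ b = t j} x := InSubloop.ldiv ha hax
    have hxv := v_mem_spanOther t i hx
    have h1 : ¬ x.v = Pi.single p 1 := by
      intro h
      rw [h] at hxv
      exact h0 hxv
    have hs : x.s = σ x.v := by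
      have h3 := ihb.1
      rw [mul_s, if_neg h1, add_zero, mul_v, map_add, iha.1] at h3
      exact add_left_cancel h3
    obtain ⟨h4, h5⟩ := prod a x hxv hs
    refine ⟨hs, ?_⟩
    have h6 := ihb.2
    rw [h5, mul_v, map_add, iha.2] at h6
    exact add_left_cancel h6
  | @rdiv a x ha hxa iha ihb =>
    obtain ⟨h1, h2⟩ := prod x a (v_mem_spanOther t i ha) iha.1
    rw [h1, h2, mul_v, map_add, map_add, iha.1, iha.2] at ihb
    exact ⟨add_right_cancel ihb.1, add_right_cancel ihb.2⟩

theorem span_step [Fact (p ≠ q)] (t t' : Y → M p q) (i : Y) (hj : ∀ j, j ≠ i → t' j = t j)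
    (u : M p q) (hu : InSubloop {b | ∃ j, j ≠ i ∧ b = t j} u)
    (hv : (t' i).v = (t i).v + u.v) (h : Spans t) : Spans t' := by
  intro a
  refine Submodule.span_le.mpr ?_ (h a)
  rintro _ ⟨j, rfl⟩
  show (t j).v ∈ Submodule.span (ZMod 2) (Set.range fun j => (t' j).v)
  have hle : spanOther t i ≤ Submodule.span (ZMod 2) (Set.range fun j => (t' j).v) := by
    apply Submodule.span_le.mpr
    rintro _ ⟨k, hk, rfl⟩
    rw [← hj k hk]
    exact Submodule.subset_span ⟨k, rfl⟩
  by_cases hji : j = i
  · subst hji
    have h1 : (t j).v = (t' j).v + u.v := by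
      rw [hv, add_assoc, vadd_self, add_zero]
    rw [h1]
    exact Submodule.add_mem _ (Submodule.subset_span ⟨j, rfl⟩)
      (hle (v_mem_spanOther t j hu))
  · rw [← hj j hji]
    exact Submodule.subset_span ⟨j, rfl⟩

theorem other_eq_top (t : Y → M p q) (i : Y) (h : Spans t) (hi : (t i).v ∈ spanOther t i)
    (a : Y → ZMod 2) : a ∈ spanOther t i := by
  refine Submodule.span_le.mpr ?_ (h a)
  rintro _ ⟨j, rfl⟩
  show (t j).v ∈ spanOther t i
  by_cases hji : j = i
  · rw [hji]; exact hi
  · exact Submodule.subset_span ⟨j, hji, rfl⟩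

theorem inv_step [Finite Y] [Fact (p ≠ q)] (t t' : Y → M p q) (i : Y)
    (hj : ∀ j, j ≠ i → t' j = t j)
    (u : M p q) (hu : InSubloop {b | ∃ j, j ≠ i ∧ b = t j} u)
    (ht : t' i = t i * u ∨ t' i = u * t i ∨ t i = t' i * u ∨ t i = u * t' i)
    (h : Spans t ∧ Inv t) : Spans t' ∧ Inv t' := by
  have hv : (t' i).v = (t i).v + u.v := by
    rcases ht with h | h | h | h
    · rw [h, mul_v]
    · rw [h, mul_v, add_comm]
    · rw [h, mul_v, add_assoc, vadd_self, add_zero]
    · rw [h, mul_v, vcancel]
  refine ⟨span_step t t' i hj u hu hv h.1, ?_⟩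
  intro f hf
  obtain ⟨hsp, hinv⟩ := h
  have := Fintype.ofFinite Y
  -- the basis given by the vector components
  let b : Module.Basis Y (ZMod 2) (Y → ZMod 2) :=
    basisOfTopLeSpanOfCardEqFinrank (fun j => (t j).v) (fun a _ => hsp a)
      (by rw [Module.finrank_pi])
  have hb : ∀ j, b j = (t j).v := by
    intro j
    show (basisOfTopLeSpanOfCardEqFinrank (fun j => (t j).v) _ _) j = (t j).v
    rw [coe_basisOfTopLeSpanOfCardEqFinrank]
  by_cases h0 : Pi.single p (1 : ZMod 2) ∈ spanOther t i
  · let g : (Y → ZMod 2) →ₗ[ZMod 2] ZMod 2 := b.constr (ZMod 2) (fun j => (t j).z)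
    have hg : ∀ j, g (t j).v = (t j).z := by
      intro j
      rw [← hb j]
      exact b.constr_basis (ZMod 2) _ j
    have hfg : f (Pi.single p 1) = g (Pi.single p 1) := by
      have : Set.EqOn f g (spanOther t i : Set (Y → ZMod 2)) := by
        apply LinearMap.eqOn_span
        rintro _ ⟨j, hji, rfl⟩
        rw [hg j, ← hj j hji]
        exact hf j
      exact this h0
    rw [hfg]
    exact hinv g hg
  · let σ : (Y → ZMod 2) →ₗ[ZMod 2] ZMod 2 := b.constr (ZMod 2) (fun j => (t j).s)
    have hσ : ∀ j, σ (t j).v = (t j).s := by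
      intro j
      rw [← hb j]
      exact b.constr_basis (ZMod 2) _ j
    have hti : (t i).v ∉ spanOther t i := fun h => h0 (other_eq_top t i hsp h _)
    have hti' : (t' i).v ∉ spanOther t i := by
      intro h
      apply hti
      have h1 : (t i).v = (t' i).v + u.v := by
        rw [hv, add_assoc, vadd_self, add_zero]
      rw [h1]
      exact Submodule.add_mem _ h (v_mem_spanOther t i hu)
    have hne : ¬ (t i).v = 0 := fun h => hti (by rw [h]; exact Submodule.zero_mem _)
    have hne' : ¬ (t' i).v = 0 := fun h => hti' (by rw [h]; exact Submodule.zero_mem _)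
    have hf' : ∀ j, j ≠ i → f (t j).v = (t j).z := by
      intro j hji
      rw [← hj j hji]
      exact hf j
    obtain ⟨hus, huz⟩ := subloop_linear t i h0 σ f (fun j _ => hσ j) hf' hu
    have hc : ¬ (u.v = 0 ∧ u.s = 1) := by
      rintro ⟨ha, hb'⟩
      rw [hb', ha, map_zero] at hus
      exact one_ne_zero hus
    have hz : (t' i).z = (t i).z + u.z := by
      rcases ht with h | h | h | h
      · rw [h, mul_z, if_neg hc, add_zero]
      · rw [h, mul_z, if_neg (fun h => hne h.1), add_zero, add_comm]
      · rw [h, mul_z, if_neg hc, add_zero, add_assoc, zadd_self, add_zero]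
      · rw [h, mul_z, if_neg (fun h => hne' h.1), add_zero, add_comm u.z, add_assoc,
          zadd_self, add_zero]
    have hi := hf i
    rw [hv, map_add, hz, huz] at hi
    have hi' : f (t i).v = (t i).z := add_right_cancel hi
    apply hinv f
    intro j
    by_cases hji : j = i
    · rw [hji]; exact hi'
    · exact hf' j hji

end Quot

/-! ### Tame automorphisms preserve the invariant -/

section Main

open Classical

variable {Y : Type v} [Finite Y] {B : Type u} [BolLoopTwo B] {p q : Y} [Fact (p ≠ q)]

theorem elementary_preserves (y : Y → B) (φ : MulAut B) (h : IsElementary y φ)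
    (π : B →* M p q) : (Spans (fun j => π (y j)) ∧ Inv (fun j => π (y j))) ↔
      (Spans (fun j => π (φ (y j))) ∧ Inv (fun j => π (φ (y j)))) := by
  obtain ⟨i, v, hv, himg, hfix⟩ := h
  have hu : InSubloop {b | ∃ j, j ≠ i ∧ b = π (y j)} (π v) := by
    refine InSubloop.map π ?_ hv
    rintro a ⟨j, hj, rfl⟩
    exact ⟨j, hj, rfl⟩
  have hu' : InSubloop {b | ∃ j, j ≠ i ∧ b = π (φ (y j))} (π v) := by
    refine InSubloop.map π ?_ hv
    rintro a ⟨j, hj, rfl⟩
    exact ⟨j, hj, by rw [hfix j hj]⟩
  constructor
  · refine inv_step _ _ i (fun j hj => by rw [hfix j hj]) (π v) hu ?_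
    rcases himg with h | h
    · left; rw [h, map_mul]
    · right; left; rw [h, map_mul]
  · refine inv_step _ _ i (fun j hj => by rw [hfix j hj]) (π v) hu' ?_
    rcases himg with h | h
    · right; right; left; rw [h, map_mul]
    · right; right; right; rw [h, map_mul]

theorem tame_preserves (y : Y → B) (φ : MulAut B) (h : φ ∈ tame y) :
    ∀ π : B →* M p q, (Spans (fun j => π (y j)) ∧ Inv (fun j => π (y j))) ↔
      (Spans (fun j => π (φ (y j))) ∧ Inv (fun j => π (φ (y j)))) := by
  unfold tame at h
  induction h using Subgroup.closure_induction with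
  | mem φ hφ => exact elementary_preserves y φ hφ
  | one => intro π; rfl
  | mul φ ψ _ _ ihφ ihψ =>
    intro π
    have h1 := ihφ π
    have h2 := ihψ (π.comp φ.toMonoidHom)
    exact h1.trans h2
  | inv φ _ ih =>
    intro π
    have h1 := ih (π.comp (φ⁻¹ : MulAut B).toMonoidHom)
    simp only [MonoidHom.comp_apply, MulEquiv.toMonoidHom_eq_coe, MonoidHom.coe_coe,
      MulAut.inv_apply_self] at h1
    exact h1.symm

omit [Finite Y] [Fact (p ≠ q)] in
theorem single_ne (hpq : p ≠ q) :
    ¬ (Pi.single q (1 : ZMod 2) : Y → ZMod 2) = Pi.single p 1 := by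
  intro h
  have h1 := congrFun h q
  simp [hpq.symm] at h1

/-- For two distinct free generators the inner mapping `t ↦ ((t (x y)) (y x)) ((x y) (y x))`
is not tame. -/
theorem inner_not_tame (y : Y → B) (hy : IsFreeOn.{u, v, v} y) :
    inner (y p * y q) (y q * y p) ∉ tame y := by
  have hpq : p ≠ q := Fact.out
  intro hmem
  obtain ⟨π, hπ, -⟩ := hy (M p q) (fun j => ⟨Pi.single j 1, 0, 0⟩)
  have h := tame_preserves (p := p) (q := q) y _ hmem π
  have hstart : Spans (fun j => π (y j)) ∧ Inv (fun j => π (y j)) := by
    have := Fintype.ofFinite Y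
    constructor
    · intro a
      have h1 : a = ∑ j, a j • (Pi.single j (1 : ZMod 2) : Y → ZMod 2) := by
        funext k
        simp [Finset.sum_apply, Pi.single_apply]
      rw [h1]
      refine Submodule.sum_mem _ (fun j _ => Submodule.smul_mem _ _ ?_)
      refine Submodule.subset_span ⟨j, ?_⟩
      show (π (y j)).v = _
      rw [hπ j]
    · intro f hf
      have h1 := hf p
      simp only [hπ p] at h1
      exact h1
  have hend := (h.mp hstart).2
  have hne1 : ¬ (Pi.single p (1 : ZMod 2) + Pi.single q 1 : Y → ZMod 2) = Pi.single p 1 := by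
    intro h
    have h1 := congrFun h q
    simp [hpq.symm] at h1
  have hne2 : ¬ (Pi.single p (1 : ZMod 2) + Pi.single q 1 : Y → ZMod 2) = 0 := by
    intro h
    have h1 := congrFun h q
    simp [hpq.symm] at h1
  have hne3 : ¬ (Pi.single q (1 : ZMod 2) + Pi.single p 1 : Y → ZMod 2) = Pi.single p 1 := by
    rw [add_comm]; exact hne1
  have hne4 : ¬ (Pi.single q (1 : ZMod 2) + Pi.single p 1 : Y → ZMod 2) = 0 := by
    rw [add_comm]; exact hne2
  have hq0 : ¬ (Pi.single q (1 : ZMod 2) : Y → ZMod 2) = 0 := by
    intro h
    have h1 := congrFun h q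
    simp at h1
  have hp0 : ¬ (Pi.single p (1 : ZMod 2) : Y → ZMod 2) = 0 := by
    intro h
    have h1 := congrFun h p
    simp at h1
  -- the images of `x y` and `y x`
  have hxy : π (y p * y q) = ⟨Pi.single p 1 + Pi.single q 1, 0, 0⟩ := by
    rw [map_mul, hπ p, hπ q]
    apply M.ext
    · rfl
    · rw [mul_s]
      show (0 : ZMod 2) + 0 + (if (Pi.single q (1 : ZMod 2) : Y → ZMod 2) = Pi.single p 1
        then _ else 0) = 0
      rw [if_neg (single_ne hpq)]; rfl
    · rw [mul_z]
      show (0 : ZMod 2) + 0 + (if (Pi.single q (1 : ZMod 2) : Y → ZMod 2) = 0 ∧ (0 : ZMod 2) = 1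
        then _ else 0) = 0
      rw [if_neg (fun h => hq0 h.1)]; rfl
  have hyx : π (y q * y p) = ⟨Pi.single q 1 + Pi.single p 1, 1, 0⟩ := by
    rw [map_mul, hπ p, hπ q]
    apply M.ext
    · rfl
    · rw [mul_s]
      show (0 : ZMod 2) + 0 + (if (Pi.single p (1 : ZMod 2) : Y → ZMod 2) = Pi.single p 1
        then (Pi.single q (1 : ZMod 2) : Y → ZMod 2) q else 0) = 1
      rw [if_pos rfl]; simp
    · rw [mul_z]
      show (0 : ZMod 2) + 0 + (if (Pi.single p (1 : ZMod 2) : Y → ZMod 2) = 0 ∧ (0 : ZMod 2) = 1
        then _ else 0) = 0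
      rw [if_neg (fun h => hp0 h.1)]; rfl
  have hval : ∀ w : B, π (inner (y p * y q) (y q * y p) w) =
      ⟨(π w).v, (π w).s, (π w).z + (π w).v p⟩ := by
    intro w
    rw [inner_apply, map_mul π (w * (y p * y q) * (y q * y p)), map_mul π (w * (y p * y q)),
      map_mul π w, map_mul π (y p * y q) (y q * y p), hxy, hyx]
    have e1 : (⟨Pi.single p 1 + Pi.single q 1, 0, 0⟩ * ⟨Pi.single q 1 + Pi.single p 1, 1, 0⟩ :
        M p q) = ⟨0, 1, 0⟩ := by
      apply M.ext
      · rw [mul_v]
        show (Pi.single p 1 + Pi.single q 1 + (Pi.single q 1 + Pi.single p 1) :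
          Y → ZMod 2) = 0
        rw [add_comm (Pi.single q (1 : ZMod 2) : Y → ZMod 2)]
        exact vadd_self _
      · rw [mul_s]
        show (0 : ZMod 2) + 1 + (if (Pi.single q 1 + Pi.single p 1 : Y → ZMod 2) =
          Pi.single p 1 then _ else 0) = 1
        rw [if_neg hne3]; rfl
      · rw [mul_z]
        show (0 : ZMod 2) + 0 + (if (Pi.single q 1 + Pi.single p 1 : Y → ZMod 2) = 0 ∧
          (1 : ZMod 2) = 1 then _ else 0) = 0
        rw [if_neg (fun h => hne4 h.1)]; rfl
    rw [e1]
    generalize π w = x
    apply M.ext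
    · rw [mul_v, mul_v, mul_v]
      show x.v + (Pi.single p 1 + Pi.single q 1) + (Pi.single q 1 + Pi.single p 1) + 0 = x.v
      rw [add_comm (Pi.single q (1 : ZMod 2) : Y → ZMod 2), add_zero, add_assoc, vadd_self,
        add_zero]
    · rw [mul_s, mul_s, mul_s]
      show x.s + 0 + (if (Pi.single p 1 + Pi.single q 1 : Y → ZMod 2) = Pi.single p 1
        then _ else 0) + 1 + (if (Pi.single q 1 + Pi.single p 1 : Y → ZMod 2) = Pi.single p 1
        then _ else 0) + 1 + (if (0 : Y → ZMod 2) = Pi.single p 1 then _ else 0) = x.s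
      rw [if_neg hne1, if_neg hne3, if_neg zero_ne_single]
      generalize x.s = c
      revert c
      decide
    · rw [mul_z, mul_z, mul_z, mul_v, mul_v]
      show x.z + 0 + (if (Pi.single p 1 + Pi.single q 1 : Y → ZMod 2) = 0 ∧ (0 : ZMod 2) = 1
        then _ else 0) + 0 + (if (Pi.single q 1 + Pi.single p 1 : Y → ZMod 2) = 0 ∧
        (1 : ZMod 2) = 1 then _ else 0) + 0 + (if (0 : Y → ZMod 2) = 0 ∧ (1 : ZMod 2) = 1
        then (x.v + (Pi.single p 1 + Pi.single q 1) + (Pi.single q 1 + Pi.single p 1) :
          Y → ZMod 2) p else 0) = x.z + x.v p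
      rw [if_neg (fun h => hne2 h.1), if_neg (fun h => hne4 h.1), if_pos ⟨rfl, rfl⟩,
        add_comm (Pi.single q (1 : ZMod 2) : Y → ZMod 2), add_assoc x.v, vadd_self, add_zero,
        add_zero, add_zero, add_zero, add_zero, add_zero]
  have hfin := hend (LinearMap.proj p) (by
    intro j
    simp only [hval, hπ j]
    show (Pi.single j (1 : ZMod 2) : Y → ZMod 2) p = 0 + (Pi.single j (1 : ZMod 2) :
      Y → ZMod 2) p
    rw [zero_add])
  simp at hfin

end Main

/-- For `n ≤ 1` the free Bol loop of exponent two on `n` generators has only the trivial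
automorphism. -/
theorem tame_of_le_one {n : ℕ} (hn : n ≤ 1) (φ : MulAut (FreeBolTwo (Fin n))) :
    φ ∈ tame (FreeBolTwo.of : Fin n → FreeBolTwo (Fin n)) := by
  have hsub : ∀ i j : Fin n, i = j := by
    intro i j
    apply Fin.ext
    have h1 := i.isLt
    have h2 := j.isLt
    omega
  have hcases : ∀ b : FreeBolTwo (Fin n), b = 1 ∨ ∃ i, b = FreeBolTwo.of i := by
    intro b
    induction b using FreeBolTwo.ind with
    | _ s =>
      induction s with
      | one => exact Or.inl rfl
      | var j => exact Or.inr ⟨j, rfl⟩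
      | mul s t ih1 ih2 =>
        rw [FreeBolTwo.mk_mul]
        rcases ih1 with h1 | ⟨i, h1⟩
        · rw [h1, one_mul]; exact ih2
        · rcases ih2 with h2 | ⟨j, h2⟩
          · rw [h2, mul_one]; exact Or.inr ⟨i, h1⟩
          · left; rw [h1, h2, hsub i j]; exact BolLoopTwo.sq _
  have hφ : φ = 1 := by
    ext b
    show φ b = b
    rcases hcases b with rfl | ⟨i, rfl⟩
    · exact map_one φ
    · rcases hcases (φ (FreeBolTwo.of i)) with h | ⟨j, h⟩
      · have h1 : FreeBolTwo.of i = 1 := φ.injective (by rw [h, map_one])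
        rw [h, h1]
      · rw [h, hsub j i]
  rw [hφ]
  exact Subgroup.one_mem _

end Pool.Agent.MP_e74ac0_al
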